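import Pool.Agent.Helper75.PX.Stmts

set_option autoImplicit false

universe u

open Module Polynomial

namespace Pool.Agent.Helper75.PX

/-- the trace as a linear form -/
noncomputable def trz_T (K D : Type u) [Field K] [DivisionRing D] [Algebra K D] : D →ₗ[K] K :=
  LinearMap.trace K D ∘ₗ LinearMap.mul K D

theorem trz_T_apply (K D : Type u) [Field K] [DivisionRing D] [Algebra K D] (y : D) :
    trz_T K D y = trL K y := rfl

/-- the polynomials in `x` -/
noncomputable def trz_E (K : Type u) {D : Type u} [Field K] [DivisionRing D] [Algebra K D]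
    (x : D) : Submodule K D := LinearMap.range (aeval x : K[X] →ₐ[K] D).toLinearMap

theorem trz_mul {K D : Type u} [Field K] [DivisionRing D] [Algebra K D] {x e f : D}
    (he : e ∈ trz_E K x) (hf : f ∈ trz_E K x) : e * f ∈ trz_E K x := by
  obtain ⟨p, rfl⟩ := he
  obtain ⟨q, rfl⟩ := hf
  exact ⟨p * q, map_mul (aeval x) p q⟩

theorem trz_one {K D : Type u} [Field K] [DivisionRing D] [Algebra K D] (x : D) :
    (1 : D) ∈ trz_E K x := ⟨1, map_one (aeval x)⟩

theorem trz_self {K D : Type u} [Field K] [DivisionRing D] [Algebra K D] (x : D) :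
    x ∈ trz_E K x := ⟨X, aeval_X x⟩

theorem trz_inv {K D : Type u} [Field K] [DivisionRing D] [Algebra K D] [FiniteDimensional K D]
    {x f : D} (hf : f ∈ trz_E K x) (hf0 : f ≠ 0) : f⁻¹ ∈ trz_E K x := by
  let g : trz_E K x →ₗ[K] trz_E K x :=
    (LinearMap.mulLeft K f).restrict (fun s hs => trz_mul hf hs)
  have hg : ∀ s : trz_E K x, ((g s : trz_E K x) : D) = f * s := fun s => rfl
  have hinj : Function.Injective g := by
    intro s t h
    apply Subtype.ext
    have h1 : f * (s : D) = f * t := by rw [← hg, ← hg, h]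
    exact mul_left_cancel₀ hf0 h1
  obtain ⟨s, hs⟩ := LinearMap.injective_iff_surjective.1 hinj ⟨1, trz_one x⟩
  have h1 : f * (s : D) = 1 := by rw [← hg, hs]
  rw [← eq_inv_of_mul_eq_one_right h1]
  exact s.2

theorem trz_finrank {K D : Type u} [Field K] [DivisionRing D] [Algebra K D]
    [FiniteDimensional K D] (x : D) :
    finrank K (trz_E K x) ≤ (minpoly K x).natDegree := by
  have hx : IsIntegral K x := Algebra.IsIntegral.isIntegral x
  have hm := minpoly.monic hx
  have h1 : trz_E K x ≤ Submodule.map (aeval x : K[X] →ₐ[K] D).toLinearMap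
      (degreeLT K (minpoly K x).natDegree) := by
    rintro _ ⟨p, rfl⟩
    refine ⟨p %ₘ minpoly K x, ?_, ?_⟩
    · rw [SetLike.mem_coe, mem_degreeLT, ← degree_eq_natDegree hm.ne_zero]
      exact degree_modByMonic_lt _ hm
    · exact aeval_modByMonic_eq_self_of_root (minpoly.aeval K x)
  have h2 := Submodule.finrank_mono h1
  have h3 := Submodule.finrank_map_le (aeval x : K[X] →ₐ[K] D).toLinearMap
      (degreeLT K (minpoly K x).natDegree)
  have h4 : finrank K (degreeLT K (minpoly K x).natDegree) = (minpoly K x).natDegree := by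
    rw [LinearEquiv.finrank_eq (degreeLTEquiv K _), Module.finrank_fin_fun]
  omega

theorem st_TRZ : ST_TRZ.{u} := by
  intro K D _ _ _ _ x h1 h2
  have hE : finrank K (trz_E K x) < finrank K D := lt_of_le_of_lt (trz_finrank x) h2
  -- the vector `v`
  let φ : D →ₗ[K] (trz_E K x →ₗ[K] K) :=
    { toFun := fun v => trz_T K D ∘ₗ LinearMap.mulRight K v ∘ₗ (trz_E K x).subtype
      map_add' := by
        intro v w
        ext e
        simp [mul_add]
      map_smul' := by
        intro c v
        ext e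
        simp }
  have hφ : ∀ (v : D) (e : trz_E K x), φ v e = trL K ((e : D) * v) := fun v e => rfl
  have hker : LinearMap.ker φ ≠ ⊥ := by
    apply LinearMap.ker_ne_bot_of_finrank_lt
    rw [Module.finrank_linearMap, Module.finrank_self, mul_one]
    exact hE
  obtain ⟨v, hv, hv0⟩ := (Submodule.ne_bot_iff _).1 hker
  have hv' : ∀ e ∈ trz_E K x, trL K (e * v) = 0 := by
    intro e he
    rw [← hφ v ⟨e, he⟩, LinearMap.mem_ker.1 hv]
    rfl
  -- the element `f`
  obtain ⟨f, hf, hf0, hfv⟩ : ∃ f ∈ trz_E K x, f ≠ 0 ∧ trL K (v⁻¹ * f) = 0 := by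
    by_cases ht : trL K v⁻¹ = 0
    · exact ⟨1, trz_one x, one_ne_zero, by rw [mul_one]; exact ht⟩
    · refine ⟨trL K (v⁻¹ * x) • (1 : D) - trL K v⁻¹ • x,
        Submodule.sub_mem _ (Submodule.smul_mem _ _ (trz_one x))
          (Submodule.smul_mem _ _ (trz_self x)), ?_, ?_⟩
      · intro h
        have h3 : x = algebraMap K D ((trL K v⁻¹)⁻¹ * trL K (v⁻¹ * x)) := by
          rw [Algebra.algebraMap_eq_smul_one, mul_smul, sub_eq_zero.1 h, smul_smul,
            inv_mul_cancel₀ ht, one_smul]
        rw [h3, minpoly.eq_X_sub_C, natDegree_X_sub_C] at h1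
        omega
      · rw [← trz_T_apply, mul_sub, mul_smul_comm, mul_smul_comm, mul_one, map_sub, map_smul,
          map_smul, trz_T_apply, trz_T_apply, smul_eq_mul, smul_eq_mul]
        ring
  refine ⟨f⁻¹ * v, mul_ne_zero (inv_ne_zero hf0) hv0, hv' _ (trz_inv hf hf0), ?_⟩
  rw [mul_inv_rev, inv_inv]
  exact hfv

end Pool.Agent.Helper75.PX
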